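import Pool.Agent.U976.LT.Defs
import Mathlib.Analysis.LocallyConvex.Separation
import Mathlib.Topology.Algebra.Module.FiniteDimension
import Mathlib.LinearAlgebra.Dual.Lemmas

/-!
# The exponents of the adjoint class are nef on the base
-/

set_option autoImplicit false

namespace Pool.Agent.U976.LT

open Filter Topology

variable {ι : Type*} [Fintype ι] {n : ℕ} {u : ι → Fin n → ℤ} {S : Set (Set ι)}

omit [Fintype ι] in
theorem pr_add (q q' : Fin n → ℝ) (i : ι) : pr u (q + q') i = pr u q i + pr u q' i := by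
  simp only [pr, Pi.add_apply, add_mul, Finset.sum_add_distrib]

omit [Fintype ι] in
theorem pr_smul (t : ℝ) (q : Fin n → ℝ) (i : ι) : pr u (t • q) i = t * pr u q i := by
  simp only [pr, Pi.smul_apply, smul_eq_mul, Finset.mul_sum, mul_assoc]

omit [Fintype ι] in
theorem pr_continuous (i : ι) : Continuous fun q : Fin n → ℝ => pr u q i := by
  unfold pr
  fun_prop

omit [Fintype ι] in
theorem closed_of (b : ι → ℝ) : IsClosed {p : Fin n → ℝ | ∀ i, 0 ≤ b i + pr u p i} := by
  rw [Set.ofPred_forall]
  exact isClosed_iInter fun i => isClosed_le continuous_const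
    (continuous_const.add (pr_continuous i))

theorem rep_pair {w : Fin n → ℝ} {a : ι → ℝ} (h : ∀ l, ∑ i, a i * (u i l : ℝ) = w l)
    (q : Fin n → ℝ) : ∑ l, q l * w l = ∑ i, a i * pr u q i := by
  simp only [pr, ← h, Finset.mul_sum]
  rw [Finset.sum_comm]
  exact Finset.sum_congr rfl fun i _ => Finset.sum_congr rfl fun l _ => by ring

variable {W : Type*} [NormedAddCommGroup W] [NormedSpace ℝ W] {C : Set W} {κ : W} {N : Fin n → W}
  {b : ι → ℝ} {α : W}

/-- The exponents of `K_Y + B + β` are exponents of `B + β`. -/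
theorem mem_of_adjoint (hS : IsCompleteFan u S) (hC : Convex ℝ C) (hCc : IsClosed C)
    (hb : IsGenLC u S C N b α) {q : Fin n → ℝ} (hq : ∀ i, 0 ≤ b i - 1 + pr u q i) :
    α + ∑ l, q l • N l ∈ C := by
  classical
  let P : Set (Fin n → ℝ) := {p | (∀ i, 0 ≤ b i + pr u p i) ∧ α + ∑ l, p l • N l ∈ C}
  have hPc : IsClosed P := by
    refine IsClosed.inter ?_ ?_
    · exact closed_of (fun i => b i)
    · refine hCc.preimage (f := fun p : Fin n → ℝ => α + ∑ l, p l • N l) ?_
      fun_prop
  have hPx : Convex ℝ P := by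
    intro p hp p' hp' s t hs ht hst
    refine ⟨fun i => ?_, ?_⟩
    · rw [pr_add, pr_smul, pr_smul]
      have e1 := mul_nonneg hs (hp.1 i)
      have e2 := mul_nonneg ht (hp'.1 i)
      have e3 : b i = s * b i + t * b i := by rw [← add_mul, hst, one_mul]
      rw [e3]
      linarith
    · have e1 := hC hp.2 hp'.2 hs ht hst
      have e2 : s • (α + ∑ l, p l • N l) + t • (α + ∑ l, p' l • N l)
          = α + ∑ l, (s • p + t • p') l • N l := by
        simp only [Pi.add_apply, Pi.smul_apply, smul_eq_mul, add_smul, mul_smul,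
          Finset.sum_add_distrib, smul_add, ← Finset.smul_sum]
        have e3 : s • α + t • α = α := by rw [← add_smul, hst, one_smul]
        rw [add_add_add_comm, e3]
      rwa [e2] at e1
  by_contra hcon
  have hqP : q ∉ P := fun h => hcon h.2
  obtain ⟨f, s, hf1, hf2⟩ := geometric_hahn_banach_point_closed hPx hPc hqP
  let w : Fin n → ℝ := fun l => f (Pi.single l 1)
  have hfw : ∀ p : Fin n → ℝ, f p = ∑ l, p l * w l := by
    intro p
    have e1 : p = ∑ l, p l • (Pi.single l (1 : ℝ) : Fin n → ℝ) := by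
      funext l
      rw [Finset.sum_apply]
      simp [Pi.single_apply]
    conv_lhs => rw [e1]
    rw [map_sum]
    exact Finset.sum_congr rfl fun l _ => by rw [map_smul, smul_eq_mul]
  obtain ⟨a, ha, -⟩ := hS.rep w
  obtain ⟨p, hp1, hp2, hp3⟩ := hb w a ha
  have h1 := hf2 p ⟨hp1, hp2⟩
  rw [hfw, rep_pair ha.2.2] at h1
  rw [hfw, rep_pair ha.2.2] at hf1
  have h2 : ∑ i, a i * (1 - b i) ≤ ∑ i, a i * pr u q i :=
    Finset.sum_le_sum fun i _ => mul_le_mul_of_nonneg_left (by linarith [hq i]) (ha.1 i)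
  have h3 : ∑ i, a i * pr u p i ≤ ∑ i, a i * (1 - b i) := by
    simp only [mul_add, Finset.sum_add_distrib] at hp3
    simp only [mul_sub, mul_one, Finset.sum_sub_distrib]
    linarith
  linarith

end Pool.Agent.U976.LT
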