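import Pool.Agent.U976.LT.A

/-!
# The normal fans of simple polytopes
-/

set_option autoImplicit false

namespace Pool.Agent.U976.LT

open Filter Topology

variable {ι : Type*} [Fintype ι] {n : ℕ} {u : ι → Fin n → ℤ} {S : Set (Set ι)}

omit [Fintype ι] in
/-- The faces of the polytope. -/
def faces (u : ι → Fin n → ℤ) (d : ι → ℝ) : Set (Set ι) :=
  {σ | ∃ q : Fin n → ℝ, (∀ i, 0 ≤ d i + pr u q i) ∧ ∀ i ∈ σ, d i + pr u q i = 0}

/-- The polytopes are bounded. -/
theorem bounded_of (hS : IsCompleteFan u S) (d : ι → ℝ) :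
    ∃ K : ℝ, ∀ q : Fin n → ℝ, (∀ i, 0 ≤ d i + pr u q i) → ∀ l, |q l| ≤ K := by
  classical
  have h1 : ∀ w : Fin n → ℝ, ∃ K : ℝ, ∀ q : Fin n → ℝ, (∀ i, 0 ≤ d i + pr u q i) →
      -K ≤ ∑ l, q l * w l := by
    intro w
    obtain ⟨a, ha, -⟩ := hS.rep w
    refine ⟨∑ i, a i * d i, fun q hq => ?_⟩
    rw [rep_pair ha.2.2, ← Finset.sum_neg_distrib]
    exact Finset.sum_le_sum fun i _ => by nlinarith [hq i, ha.1 i, mul_nonneg (ha.1 i) (hq i)]
  choose K hK using h1
  refine ⟨∑ l : Fin n, (|K (Pi.single l 1)| + |K (Pi.single l (-1))|), fun q hq l => ?_⟩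
  have e1 := hK (Pi.single l 1) q hq
  have e2 := hK (Pi.single l (-1)) q hq
  simp only [Pi.single_apply, mul_ite, mul_one, mul_zero, mul_neg, Finset.sum_ite_eq',
    Finset.mem_univ, if_true] at e1 e2
  have e3 : |K (Pi.single l 1)| + |K (Pi.single l (-1))|
      ≤ ∑ l : Fin n, (|K (Pi.single l 1)| + |K (Pi.single l (-1))|) :=
    Finset.single_le_sum (f := fun l : Fin n => |K (Pi.single l 1)| + |K (Pi.single l (-1))|)
      (fun l _ => by positivity) (Finset.mem_univ l)
  have e4 := le_abs_self (K (Pi.single l 1))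
  have e5 := le_abs_self (K (Pi.single l (-1)))
  have e6 := abs_nonneg (K (Pi.single l 1))
  have e7 := abs_nonneg (K (Pi.single l (-1)))
  rw [abs_le]
  constructor <;> linarith

theorem compact_of (hS : IsCompleteFan u S) (d : ι → ℝ) :
    IsCompact {q : Fin n → ℝ | ∀ i, 0 ≤ d i + pr u q i} := by
  obtain ⟨K, hK⟩ := bounded_of hS d
  refine IsCompact.of_isClosed_subset (isCompact_Icc (a := fun _ : Fin n => -K)
    (b := fun _ => K)) (closed_of d) fun q hq => ?_
  exact ⟨fun l => (abs_le.1 (hK q hq l)).1, fun l => (abs_le.1 (hK q hq l)).2⟩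

/-- At a minimum of a linear function the tight inequalities are nonnegative in no descent
direction. -/
theorem no_descent {d : ι → ℝ} {w q : Fin n → ℝ} (hq : ∀ i, 0 ≤ d i + pr u q i)
    (hmin : ∀ q' : Fin n → ℝ, (∀ i, 0 ≤ d i + pr u q' i) → ∑ l, q l * w l ≤ ∑ l, q' l * w l)
    {p : Fin n → ℝ} (hp : ∀ i, d i + pr u q i = 0 → 0 ≤ pr u p i) : 0 ≤ ∑ l, p l * w l := by
  have h1 : ∀ᶠ t in 𝓝[>] (0 : ℝ), ∀ i, 0 ≤ d i + pr u (q + t • p) i := by
    refine Filter.eventually_all.2 fun i => ?_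
    by_cases hi : d i + pr u q i = 0
    · filter_upwards [self_mem_nhdsWithin] with t ht
      rw [pr_add, pr_smul, ← add_assoc, hi, zero_add]
      exact mul_nonneg (le_of_lt ht) (hp i hi)
    · have h2 : 0 < d i + pr u q i := lt_of_le_of_ne (hq i) (Ne.symm hi)
      have h3 : Continuous fun t : ℝ => d i + pr u (q + t • p) i := by
        refine continuous_const.add ((pr_continuous i).comp ?_)
        fun_prop
      have h4 : Tendsto (fun t : ℝ => d i + pr u (q + t • p) i) (𝓝[>] 0)
          (𝓝 (d i + pr u q i)) := by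
        have := h3.tendsto 0
        simp only [zero_smul, add_zero] at this
        exact this.mono_left nhdsWithin_le_nhds
      filter_upwards [h4.eventually_const_lt h2] with t ht using ht.le
  obtain ⟨t, ht, ht0⟩ := (h1.and self_mem_nhdsWithin).exists
  have h2 := hmin _ ht
  have ht' : (0 : ℝ) < t := ht0
  simp only [Pi.add_apply, Pi.smul_apply, smul_eq_mul, add_mul, Finset.sum_add_distrib] at h2
  have h3 : ∑ l, t * p l * w l = t * ∑ l, p l * w l := by
    rw [Finset.mul_sum]
    exact Finset.sum_congr rfl fun l _ => by ring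
  rw [h3] at h2
  nlinarith

/-- The fan of a simple polytope. -/
theorem fan_of_generic (hS : IsCompleteFan u S) {d : ι → ℝ} (hne : ∃ q : Fin n → ℝ, ∀ i, 0 ≤ d i + pr u q i)
    (hgen : ∀ τ ∈ faces u d, ∀ r : ι → ℝ, (∀ i, i ∉ τ → r i = 0) →
      (∀ l, ∑ i, r i * (u i l : ℝ) = 0) → r = 0) : IsCompleteFan u (faces u d) := by
  classical
  refine ⟨fun σ ⟨q, hq, hσ⟩ τ hτ => ⟨q, hq, fun i hi => hσ i (hτ hi)⟩, fun w => ?_⟩
  -- the minimum of `w` on the polytope
  obtain ⟨q, hq, hmin⟩ : ∃ q : Fin n → ℝ, (∀ i, 0 ≤ d i + pr u q i) ∧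
      ∀ q' : Fin n → ℝ, (∀ i, 0 ≤ d i + pr u q' i) → ∑ l, q l * w l ≤ ∑ l, q' l * w l := by
    obtain ⟨q, hq, h⟩ := (compact_of hS d).exists_isMinOn hne
      (f := fun q : Fin n → ℝ => ∑ l, q l * w l) (by fun_prop)
    exact ⟨q, hq, fun q' hq' => h hq'⟩
  obtain ⟨T, hT⟩ : ∃ T : Set ι, T = {i | d i + pr u q i = 0} := ⟨_, rfl⟩
  have hTf : T ∈ faces u d := ⟨q, hq, fun i hi => by rw [hT] at hi; exact hi⟩
  have hTi : ∀ i, d i + pr u q i = 0 → i ∈ T := fun i hi => by rw [hT]; exact hi
  -- the combinations of the `u i`, `i ∈ T`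
  let A : (ι → ℝ) →ₗ[ℝ] (Fin n → ℝ) :=
    { toFun := fun a l => ∑ i, a i * (u i l : ℝ)
      map_add' := fun a a' => by
        funext l
        simp only [Pi.add_apply, add_mul, Finset.sum_add_distrib]
      map_smul' := fun t a => by
        funext l
        simp only [Pi.smul_apply, smul_eq_mul, RingHom.id_apply, Finset.mul_sum, mul_assoc] }
  let E : Submodule ℝ (ι → ℝ) :=
    { carrier := {a | ∀ i, i ∉ T → a i = 0}
      add_mem' := fun {a a'} ha ha' i hi => by
        change a i + a' i = 0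
        rw [ha i hi, ha' i hi, add_zero]
      zero_mem' := fun i _ => rfl
      smul_mem' := fun t a ha i hi => by
        change t * a i = 0
        rw [ha i hi, mul_zero] }
  have hEs : ∀ i ∈ T, (Pi.single i (1 : ℝ) : ι → ℝ) ∈ E := by
    intro i hi j hj
    rw [Pi.single_apply, if_neg]
    rintro rfl
    exact hj hi
  have hAs : ∀ i, A (Pi.single i 1) = fun l => (u i l : ℝ) := by
    intro i
    funext l
    change ∑ j, (Pi.single i (1 : ℝ) : ι → ℝ) j * (u j l : ℝ) = _
    simp [Pi.single_apply]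
  have hg : ∀ (g : (Fin n → ℝ) →ₗ[ℝ] ℝ) (v : Fin n → ℝ),
      ∑ l, g (Pi.single l 1) * v l = g v := by
    intro g v
    have e1 : v = ∑ l, v l • (Pi.single l (1 : ℝ) : Fin n → ℝ) := by
      funext l
      rw [Finset.sum_apply]
      simp [Pi.single_apply]
    conv_rhs => rw [e1]
    rw [map_sum]
    exact Finset.sum_congr rfl fun l _ => by rw [map_smul, smul_eq_mul, mul_comm]
  have hgu : ∀ (g : (Fin n → ℝ) →ₗ[ℝ] ℝ) (i : ι),
      pr u (fun l => g (Pi.single l 1)) i = g (A (Pi.single i 1)) := by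
    intro g i
    rw [hAs, ← hg g]
    rfl
  have hwE : w ∈ E.map A := by
    by_contra hw
    obtain ⟨g, hg1, hg2⟩ := Submodule.exists_le_ker_of_notMem hw
    have key : ∀ s : ℝ, 0 ≤ s * g w := by
      intro s
      have h1 := no_descent hq hmin (p := s • fun l => g (Pi.single l 1)) (fun i hi => by
        rw [pr_smul, hgu]
        have : A (Pi.single i 1) ∈ E.map A := Submodule.mem_map_of_mem (hEs i (hTi i hi))
        have h2 : g (A (Pi.single i 1)) = 0 := hg2 this
        rw [h2, mul_zero])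
      have h2 : ∑ l, (s • fun l => g (Pi.single l 1)) l * w l = s * g w := by
        rw [← hg g w, Finset.mul_sum]
        exact Finset.sum_congr rfl fun l _ => by
          simp only [Pi.smul_apply, smul_eq_mul]
          ring
      rwa [h2] at h1
    have h1 := key 1
    have h2 := key (-1)
    exact hg1 (by linarith)
  obtain ⟨a, haE, haw⟩ := hwE
  have hinj : ∀ r ∈ E, A r = 0 → r = 0 := fun r hr h0 =>
    hgen T hTf r hr fun l => congrFun h0 l
  have ha0 : ∀ i, 0 ≤ a i := by
    intro j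
    by_cases hj : j ∈ T
    · -- the functional with the value `a j`
      let B : E →ₗ[ℝ] (Fin n → ℝ) := A.comp E.subtype
      have hB : Function.Injective B := by
        rw [← LinearMap.ker_eq_bot, LinearMap.ker_eq_bot']
        intro r hr
        exact Subtype.ext (hinj r r.2 hr)
      obtain ⟨g0, hg0⟩ := B.exists_leftInverse_of_injective (LinearMap.ker_eq_bot.2 hB)
      let g : (Fin n → ℝ) →ₗ[ℝ] ℝ := (LinearMap.proj j).comp (E.subtype.comp g0)
      have hgE : ∀ r (hr : r ∈ E), g (A r) = r j := by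
        intro r hr
        have h1 : g0 (B ⟨r, hr⟩) = ⟨r, hr⟩ := by
          have := LinearMap.congr_fun hg0 ⟨r, hr⟩
          exact this
        change (((g0 (B ⟨r, hr⟩)) : E) : ι → ℝ) j = r j
        rw [h1]
      have h1 := no_descent hq hmin (p := fun l => g (Pi.single l 1)) (fun i hi => by
        rw [hgu, hgE _ (hEs i (hTi i hi)), Pi.single_apply]
        split_ifs <;> norm_num)
      rw [hg, ← haw, hgE a haE] at h1
      exact h1
    · rw [haE j hj]
  have hrep : IsRep u (faces u d) w a := by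
    refine ⟨ha0, ⟨q, hq, fun i hi => ?_⟩, fun l => congrFun haw l⟩
    have : i ∈ T := by
      by_contra h
      exact hi (haE i h)
    rw [hT] at this
    exact this
  refine ⟨a, hrep, fun a' ha' => ?_⟩
  -- uniqueness
  obtain ⟨h1, ⟨q', hq', h2⟩, h3⟩ := ha'
  have e1 : ∀ i, a' i * (d i + pr u q' i) = 0 := by
    intro i
    by_cases hi : a' i = 0
    · rw [hi, zero_mul]
    · rw [h2 i hi, mul_zero]
  have e2 : ∀ i, a i * (d i + pr u q i) = 0 := by
    intro i
    by_cases hi : i ∈ T
    · rw [hT] at hi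
      rw [show d i + pr u q i = 0 from hi, mul_zero]
    · rw [haE i hi, zero_mul]
  have e3 : ∑ i, a' i * (d i + pr u q i) = 0 := by
    have f1 : ∑ i, a i * pr u q i = ∑ i, a' i * pr u q i := by
      rw [← rep_pair hrep.2.2, ← rep_pair h3]
    have f2 : ∑ i, a i * pr u q' i = ∑ i, a' i * pr u q' i := by
      rw [← rep_pair hrep.2.2, ← rep_pair h3]
    have f3 : ∑ i, a' i * d i = -∑ i, a' i * pr u q' i := by
      have := Finset.sum_eq_zero fun i (_ : i ∈ Finset.univ) => e1 i
      simp only [mul_add, Finset.sum_add_distrib] at this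
      linarith
    have f4 : ∑ i, a i * d i = -∑ i, a i * pr u q i := by
      have := Finset.sum_eq_zero fun i (_ : i ∈ Finset.univ) => e2 i
      simp only [mul_add, Finset.sum_add_distrib] at this
      linarith
    have f5 : 0 ≤ ∑ i, a' i * (d i + pr u q i) :=
      Finset.sum_nonneg fun i _ => mul_nonneg (h1 i) (hq i)
    have f6 : 0 ≤ ∑ i, a i * (d i + pr u q' i) :=
      Finset.sum_nonneg fun i _ => mul_nonneg (ha0 i) (hq' i)
    simp only [mul_add, Finset.sum_add_distrib] at f5 f6 ⊢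
    linarith
  have e4 : ∀ i, a' i * (d i + pr u q i) = 0 := fun i =>
    (Finset.sum_eq_zero_iff_of_nonneg fun i _ => mul_nonneg (h1 i) (hq i)).1 e3 i
      (Finset.mem_univ i)
  have e5 : a' ∈ E := by
    intro i hi
    have := e4 i
    rcases mul_eq_zero.1 this with h | h
    · exact h
    · exact absurd (hTi i h) hi
  have e6 : A (a' - a) = 0 := by
    rw [map_sub, haw]
    funext l
    change ∑ i, a' i * (u i l : ℝ) - w l = 0
    rw [h3 l, sub_self]
  exact sub_eq_zero.1 (hinj _ (E.sub_mem e5 haE) e6)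

end Pool.Agent.U976.LT
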