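import Pool.Agent.U976.LT.B
import Mathlib.Topology.Baire.Lemmas
import Mathlib.Topology.Baire.CompleteMetrizable

/-!
# Log terminal models of generalized pairs on toric bundles
-/

set_option autoImplicit false

namespace Pool.Agent.U976.LT

open Filter Topology

variable {ι : Type*} [Fintype ι] {n : ℕ} {u : ι → Fin n → ℤ} {S : Set (Set ι)}

theorem rep_single (hS : ∀ i, {i} ∈ S) (i : ι) {t : ℝ} (ht : 0 < t) [DecidableEq ι] :
    IsRep u S (fun l => t * (u i l : ℝ)) (Pi.single i t) := by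
  refine ⟨fun j => ?_, ?_, fun l => ?_⟩
  · rw [Pi.single_apply]
    split_ifs
    · exact ht.le
    · exact le_rfl
  · have : {j | (Pi.single i t : ι → ℝ) j ≠ 0} = {i} := by
      ext j
      simp only [Set.mem_singleton_iff]
      change (Pi.single i t : ι → ℝ) j ≠ 0 ↔ j = i
      rw [Pi.single_apply]
      split_ifs with h
      · simp [h, ht.ne']
      · simp [h]
    rw [this]
    exact hS i
  · simp [Pi.single_apply]

/-- The inner products. -/
def ip (u : ι → Fin n → ℤ) (i j : ι) : ℝ := ∑ l, (u i l : ℝ) * (u j l : ℝ)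

theorem ip_pos (hS : IsCompleteFan u S) (hray : ∀ i, {i} ∈ S) (i : ι) : 0 < ip u i i := by
  classical
  have h0 : 0 ≤ ip u i i := Finset.sum_nonneg fun l _ => mul_self_nonneg _
  refine lt_of_le_of_ne h0 fun h => ?_
  have h1 : ∀ l, (u i l : ℝ) = 0 := by
    intro l
    have := (Finset.sum_eq_zero_iff_of_nonneg fun l _ => mul_self_nonneg ((u i l : ℝ))).1 h.symm l
      (Finset.mem_univ l)
    exact mul_self_eq_zero.1 this
  have r1 := rep_single (u := u) hray i one_pos
  have r2 := rep_single (u := u) hray i two_pos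
  have e1 : (fun l => (1 : ℝ) * (u i l : ℝ)) = fun l => (2 : ℝ) * (u i l : ℝ) := by
    funext l
    rw [h1 l, mul_zero, mul_zero]
  rw [e1] at r1
  have := congrFun ((hS.rep _).unique r1 r2) i
  simp at this

theorem ip_lt (hS : IsCompleteFan u S) (hray : ∀ i, {i} ∈ S) {i j : ι} (hij : i ≠ j) :
    ip u i j < √(ip u i i) * √(ip u j j) := by
  classical
  by_contra hcon
  push Not at hcon
  have hi := ip_pos hS hray i
  have hj := ip_pos hS hray j
  have hs : 0 < √(ip u i i) := Real.sqrt_pos.2 hi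
  have ht : 0 < √(ip u j j) := Real.sqrt_pos.2 hj
  have hs2 : √(ip u i i) ^ 2 = ip u i i := Real.sq_sqrt hi.le
  have ht2 : √(ip u j j) ^ 2 = ip u j j := Real.sq_sqrt hj.le
  obtain ⟨s, hsd⟩ : ∃ s, s = √(ip u i i) := ⟨_, rfl⟩
  obtain ⟨t, htd⟩ : ∃ t, t = √(ip u j j) := ⟨_, rfl⟩
  rw [← hsd, ← htd] at hcon
  rw [← hsd] at hs hs2
  rw [← htd] at ht ht2
  have h1 : ∑ l, (t * (u i l : ℝ) - s * (u j l : ℝ)) ^ 2
      = t ^ 2 * ip u i i - 2 * (s * t) * ip u i j + s ^ 2 * ip u j j := by
    simp only [ip, Finset.mul_sum]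
    rw [← Finset.sum_sub_distrib, ← Finset.sum_add_distrib]
    exact Finset.sum_congr rfl fun l _ => by ring
  have h2 : ∑ l, (t * (u i l : ℝ) - s * (u j l : ℝ)) ^ 2 = 0 := by
    refine le_antisymm ?_ (Finset.sum_nonneg fun l _ => sq_nonneg _)
    rw [h1, ← hs2, ← ht2]
    nlinarith [mul_pos hs ht]
  have h3 : ∀ l, t * (u i l : ℝ) = s * (u j l : ℝ) := by
    intro l
    have := (Finset.sum_eq_zero_iff_of_nonneg fun l _ =>
      sq_nonneg (t * (u i l : ℝ) - s * (u j l : ℝ))).1 h2 l (Finset.mem_univ l)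
    exact sub_eq_zero.1 (pow_eq_zero_iff two_ne_zero |>.1 this)
  have r1 := rep_single (u := u) hray i ht
  have r2 := rep_single (u := u) hray j hs
  have e1 : (fun l => t * (u i l : ℝ)) = fun l => s * (u j l : ℝ) := funext h3
  rw [e1] at r1
  have := congrFun ((hS.rep _).unique r1 r2) i
  simp only [Pi.single_eq_same, Pi.single_apply, if_neg hij] at this
  exact ht.ne' this

omit [Fintype ι] in
/-- The complement of an affine hyperplane is dense. -/
theorem dense_ne [Fintype ι] {r : ι → ℝ} (hr : r ≠ 0) (d : ι → ℝ) :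
    Dense {θ : ι → ℝ | ∑ i, r i * (d i + θ i) ≠ 0} := by
  classical
  obtain ⟨i, hi⟩ : ∃ i, r i ≠ 0 := by
    by_contra h
    push Not at h
    exact hr (funext h)
  let L : (ι → ℝ) →ₗ[ℝ] ℝ :=
    { toFun := fun θ => ∑ i, r i * θ i
      map_add' := fun a b => by simp only [Pi.add_apply, mul_add, Finset.sum_add_distrib]
      map_smul' := fun t a => by
        simp only [Pi.smul_apply, smul_eq_mul, RingHom.id_apply, Finset.mul_sum]
        exact Finset.sum_congr rfl fun i _ => by ring }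
  have hL : Function.Surjective L := by
    intro y
    refine ⟨Pi.single i (y / r i), ?_⟩
    change ∑ j, r j * (Pi.single i (y / r i) : ι → ℝ) j = y
    simp only [Pi.single_apply, mul_ite, mul_zero, Finset.sum_ite_eq', Finset.mem_univ, if_true]
    field_simp
  have h1 := (dense_compl_singleton (-∑ i, r i * d i)).preimage
    (L.isOpenMap_of_finiteDimensional hL)
  refine h1.mono fun θ hθ => ?_
  change ¬ (L θ = -∑ i, r i * d i) at hθ
  change ∑ i, r i * (d i + θ i) ≠ 0
  intro h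
  apply hθ
  change ∑ i, r i * θ i = _
  simp only [mul_add, Finset.sum_add_distrib] at h
  linarith

/-- Generic small perturbations which keep all tight inequalities tight. -/
theorem exists_perturb (hS : IsCompleteFan u S) (hray : ∀ i, {i} ∈ S) (d : ι → ℝ)
    (rel : Set ι → ι → ℝ) {ε : ℝ} (hε : 0 < ε) :
    ∃ θ : ι → ℝ, (∀ i, 0 ≤ θ i ∧ θ i ≤ ε) ∧
      (∀ i, ∃ p : Fin n → ℝ, θ i + pr u p i = 0 ∧ ∀ j, 0 ≤ θ j + pr u p j) ∧
      ∀ τ : Set ι, rel τ ≠ 0 → ∑ i, rel τ i * (d i + θ i) ≠ 0 := by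
  classical
  have hm := ip_pos hS hray
  obtain ⟨δ, hδ⟩ : ∃ δ : ℝ, δ = ε / (1 + ∑ i, √(ip u i i)) := ⟨_, rfl⟩
  have hsum : 0 ≤ ∑ i, √(ip u i i) := Finset.sum_nonneg fun i _ => Real.sqrt_nonneg _
  have hδ0 : 0 < δ := by
    rw [hδ]
    positivity
  let θ0 : ι → ℝ := fun i => δ * √(ip u i i)
  have hθ0 : ∀ i, 0 < θ0 i := fun i => mul_pos hδ0 (Real.sqrt_pos.2 (hm i))
  have hθ1 : ∀ i, θ0 i < ε := by
    intro i
    have h1 : √(ip u i i) ≤ ∑ i, √(ip u i i) :=
      Finset.single_le_sum (f := fun i => √(ip u i i)) (fun i _ => Real.sqrt_nonneg _)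
        (Finset.mem_univ i)
    change δ * √(ip u i i) < ε
    rw [hδ, div_mul_eq_mul_div, div_lt_iff₀ (by positivity)]
    nlinarith
  have hθ2 : ∀ i j, i ≠ j → θ0 i * ip u i j < θ0 j * ip u i i := by
    intro i j hij
    have h1 := ip_lt hS hray hij
    have h2 : √(ip u i i) ^ 2 = ip u i i := Real.sq_sqrt (hm i).le
    have h3 : 0 < √(ip u i i) := Real.sqrt_pos.2 (hm i)
    change δ * √(ip u i i) * ip u i j < δ * √(ip u j j) * ip u i i
    rw [← h2, h2]
    have h4 : √(ip u i i) * ip u i j < √(ip u j j) * ip u i i := by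
      calc √(ip u i i) * ip u i j < √(ip u i i) * (√(ip u i i) * √(ip u j j)) :=
            mul_lt_mul_of_pos_left h1 h3
        _ = √(ip u j j) * √(ip u i i) ^ 2 := by ring
        _ = _ := by rw [h2]
    calc δ * √(ip u i i) * ip u i j = δ * (√(ip u i i) * ip u i j) := by ring
      _ < δ * (√(ip u j j) * ip u i i) := mul_lt_mul_of_pos_left h4 hδ0
      _ = _ := by ring
  have hc : ∀ i, Continuous fun θ : ι → ℝ => θ i := fun i => continuous_apply i
  have hopen : ∀ᶠ θ in 𝓝 θ0, (∀ i, 0 < θ i) ∧ (∀ i, θ i < ε) ∧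
      ∀ i j, i ≠ j → θ i * ip u i j < θ j * ip u i i := by
    refine (Filter.eventually_all.2 fun i => ?_).and
      ((Filter.eventually_all.2 fun i => ?_).and
        (Filter.eventually_all.2 fun i => Filter.eventually_all.2 fun j => ?_))
    · exact ((hc i).tendsto θ0).eventually_const_lt (hθ0 i)
    · exact ((hc i).tendsto θ0).eventually_lt_const (hθ1 i)
    · by_cases hij : i = j
      · exact Eventually.of_forall fun θ h => absurd hij h
      · have h1 : ∀ᶠ θ in 𝓝 θ0, θ i * ip u i j < θ j * ip u i i :=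
          (((hc i).mul continuous_const).tendsto θ0).eventually_lt
            (((hc j).mul continuous_const).tendsto θ0) (hθ2 i j hij)
        filter_upwards [h1] with θ hθ _ using hθ
  have hdense : Dense (⋂ τ : {τ : Set ι // rel τ ≠ 0},
      {θ : ι → ℝ | ∑ i, rel τ.1 i * (d i + θ i) ≠ 0}) := by
    refine dense_iInter_of_isOpen (fun τ => ?_) fun τ => dense_ne τ.2 d
    exact isOpen_ne_fun (by fun_prop) continuous_const
  obtain ⟨θ, hθ, h1, h2, h3⟩ := hdense.inter_nhds_nonempty hopen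
  refine ⟨θ, fun i => ⟨(h1 i).le, (h2 i).le⟩, fun i => ?_, fun τ hτ => ?_⟩
  · refine ⟨fun l => -(θ i / ip u i i) * (u i l : ℝ), ?_, fun j => ?_⟩
    · have e1 : pr u (fun l => -(θ i / ip u i i) * (u i l : ℝ)) i
          = -(θ i / ip u i i) * ip u i i := by
        simp only [pr, ip, Finset.mul_sum]
        exact Finset.sum_congr rfl fun l _ => by ring
      rw [e1]
      have := (hm i).ne'
      field_simp
      ring
    · have e1 : pr u (fun l => -(θ i / ip u i i) * (u i l : ℝ)) j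
          = -(θ i / ip u i i) * ip u i j := by
        simp only [pr, ip, Finset.mul_sum]
        exact Finset.sum_congr rfl fun l _ => by ring
      rw [e1]
      by_cases hij : i = j
      · subst hij
        have := (hm i).ne'
        have e2 : θ i + -(θ i / ip u i i) * ip u i i = 0 := by
          field_simp
          ring
        rw [e2]
      · have e2 := h3 i j hij
        have e3 : θ i / ip u i i * ip u i j < θ j := by
          rw [div_mul_eq_mul_div, div_lt_iff₀ (hm i)]
          exact e2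
        linarith
  · exact Set.mem_iInter.1 hθ ⟨τ, hτ⟩

/-- Limits of faces are faces. -/
theorem limit_face (hS : IsCompleteFan u S) {d : ι → ℝ} {σ : Set ι}
    (h : ∀ ε : ℝ, 0 < ε → ∃ θ : ι → ℝ, (∀ i, 0 ≤ θ i ∧ θ i ≤ ε) ∧
      σ ∈ faces u fun i => d i + θ i) : σ ∈ faces u d := by
  classical
  let K : ℕ → Set (Fin n → ℝ) := fun m =>
    {q | (∀ i, 0 ≤ (d i + 1 / ((m : ℝ) + 1)) + pr u q i) ∧ ∀ i ∈ σ, d i + pr u q i ≤ 0}
  have hcl : ∀ m, IsClosed (K m) := by
    intro m
    refine (closed_of fun i => d i + 1 / ((m : ℝ) + 1)).inter ?_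
    have : {q : Fin n → ℝ | ∀ i ∈ σ, d i + pr u q i ≤ 0}
        = ⋂ i ∈ σ, {q : Fin n → ℝ | d i + pr u q i ≤ 0} := by
      ext q
      simp only [Set.mem_iInter]
      rfl
    change IsClosed {q : Fin n → ℝ | ∀ i ∈ σ, d i + pr u q i ≤ 0}
    rw [this]
    exact isClosed_biInter fun i _ => isClosed_le (continuous_const.add (pr_continuous i))
      continuous_const
  have hK := IsCompact.nonempty_iInter_of_sequence_nonempty_isCompact_isClosed K
    (fun m q hq => ⟨fun i => ?_, hq.2⟩) (fun m => ?_)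
    (IsCompact.of_isClosed_subset (compact_of hS fun i => d i + 1 / (((0 : ℕ) : ℝ) + 1))
      (hcl 0) fun q hq => hq.1) hcl
  · obtain ⟨q, hq⟩ := hK
    have hq' := fun m => Set.mem_iInter.1 hq m
    have h1 : ∀ i, 0 ≤ d i + pr u q i := by
      intro i
      have h2 : Tendsto (fun m : ℕ => (d i + 1 / ((m : ℝ) + 1)) + pr u q i) atTop
          (𝓝 ((d i + 0) + pr u q i)) :=
        (tendsto_one_div_add_atTop_nhds_zero_nat.const_add _).add_const _
      rw [add_zero] at h2
      exact ge_of_tendsto' h2 fun m => (hq' m).1 i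
    exact ⟨q, h1, fun i hi => le_antisymm ((hq' 0).2 i hi) (h1 i)⟩
  · have h1 := hq.1 i
    have h2 : 1 / (((m + 1 : ℕ) : ℝ) + 1) ≤ 1 / ((m : ℝ) + 1) := by
      push_cast
      exact one_div_le_one_div_of_le (by positivity) (by linarith)
    linarith
  · obtain ⟨θ, hθ, q, hq1, hq2⟩ := h (1 / ((m : ℝ) + 1)) (by positivity)
    refine ⟨q, fun i => ?_, fun i hi => ?_⟩
    · have := hq1 i
      have := (hθ i).2
      linarith
    · have := hq2 i hi
      have := (hθ i).1
      linarith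

variable {W : Type*} [NormedAddCommGroup W] [NormedSpace ℝ W] {C : Set W} {κ : W} {N : Fin n → W}
  {b : ι → ℝ} {α : W}

/-- Log terminal models exist. -/
theorem exists_model (hS : IsCompleteFan u S) (hray : ∀ i, {i} ∈ S) (hCc : IsClosed C)
    (hCa : ∀ x ∈ C, ∀ y ∈ C, x + y ∈ C) (hCs : ∀ t : ℝ, 0 ≤ t → ∀ x ∈ C, t • x ∈ C) (hκ : κ ∈ C)
    (hb : IsGenLC u S C N b α) (hp : IsPsef u C N (fun i => b i - 1) (κ + α)) :
    ∃ S' : Set (Set ι), IsModel u S S' C κ N b α := by
  classical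
  have hCx : Convex ℝ C := fun x hx y hy s t hs ht _ =>
    hCa _ (hCs s hs x hx) _ (hCs t ht y hy)
  obtain ⟨d, hd⟩ : ∃ d : ι → ℝ, d = fun i => b i - 1 := ⟨_, rfl⟩
  obtain ⟨q0, hq0, -⟩ := hp
  have hq0' : ∀ i, 0 ≤ d i + pr u q0 i := fun i => by rw [hd]; exact hq0 i
  let Q : Set ι → (ι → ℝ) → Prop := fun τ r => r ≠ 0 ∧ (∀ i, i ∉ τ → r i = 0) ∧
    ∀ l, ∑ i, r i * (u i l : ℝ) = 0
  let rel : Set ι → ι → ℝ := fun τ => if h : ∃ r, Q τ r then h.choose else 0
  have hrel : ∀ τ, rel τ ≠ 0 → Q τ (rel τ) := by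
    intro τ h
    by_cases h' : ∃ r, Q τ r
    · have : rel τ = h'.choose := dif_pos h'
      rw [this]
      exact h'.choose_spec
    · exact absurd (dif_neg h') h
  choose θ hθ1 hθ2 hθ3 using fun m : ℕ => exists_perturb hS hray d rel
    (ε := 1 / ((m : ℝ) + 1)) (by positivity)
  let F : ℕ → Set (Set ι) := fun m => faces u fun i => d i + θ m i
  have hF : ∀ m, IsCompleteFan u (F m) := by
    intro m
    refine fan_of_generic hS ⟨q0, fun i => ?_⟩ fun τ hτ r hr1 hr2 => ?_
    · have := hq0' i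
      have := (hθ1 m i).1
      linarith
    · by_contra hr0
      have h1 : ∃ r, Q τ r := ⟨r, hr0, hr1, hr2⟩
      have h2 : rel τ = h1.choose := dif_pos h1
      have h3 : rel τ ≠ 0 := by
        rw [h2]
        exact h1.choose_spec.1
      obtain ⟨-, h4, h5⟩ := hrel τ h3
      obtain ⟨q, -, hq⟩ := hτ
      apply hθ3 m τ h3
      have h6 : ∀ i, rel τ i * (d i + θ m i) = -(rel τ i * pr u q i) := by
        intro i
        by_cases hi : i ∈ τ
        · have := hq i hi
          have e1 : d i + θ m i = -pr u q i := by linarith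
          rw [e1]
          ring
        · rw [h4 i hi]
          ring
      have h7 := rep_pair (u := u) (w := fun _ => (0 : ℝ)) (a := rel τ) h5 q
      simp only [mul_zero, Finset.sum_const_zero] at h7
      rw [Finset.sum_congr rfl fun i _ => h6 i, Finset.sum_neg_distrib, ← h7, neg_zero]
  obtain ⟨S', hinf⟩ := Finite.exists_infinite_fiber F
  have hinf' : (F ⁻¹' {S'}).Infinite := Set.infinite_coe_iff.1 hinf
  obtain ⟨m0, hm0⟩ := hinf'.nonempty
  have hm0' : F m0 = S' := hm0
  have hlim : ∀ σ ∈ S', σ ∈ faces u d := by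
    intro σ hσ
    refine limit_face hS fun ε hε => ?_
    obtain ⟨k, hk⟩ := exists_nat_one_div_lt hε
    obtain ⟨m, hm, hkm⟩ := hinf'.exists_gt k
    refine ⟨θ m, fun i => ⟨(hθ1 m i).1, (hθ1 m i).2.trans ?_⟩, ?_⟩
    · refine le_trans (one_div_le_one_div_of_le (by positivity) ?_) hk.le
      have : (k : ℝ) < m := by exact_mod_cast hkm
      linarith
    · have : F m = S' := hm
      have h1 : σ ∈ F m := by rw [this]; exact hσ
      exact h1
  have hrays : ∀ i, {i} ∈ faces u d → {i} ∈ S' := by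
    rintro i ⟨q, hq1, hq2⟩
    rw [← hm0']
    obtain ⟨p, hp1, hp2⟩ := hθ2 m0 i
    refine ⟨q + p, fun j => ?_, fun j hj => ?_⟩
    · rw [pr_add]
      have := hq1 j
      have := hp2 j
      linarith
    · rw [pr_add]
      have e1 := hq2 j hj
      rw [Set.mem_singleton_iff] at hj
      subst hj
      linarith
  have hle : ∀ (w : Fin n → ℝ) (a a' : ι → ℝ), IsRep u S w a → IsRep u S' w a' →
      ∑ i, a' i * (b i - 1) ≤ ∑ i, a i * (b i - 1) := by
    intro w a a' ha ha'
    obtain ⟨q, hq1, hq2⟩ := hlim _ ha'.2.1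
    rw [hd] at hq1 hq2
    have h1 := rep_pair ha.2.2 q
    have h2 := rep_pair ha'.2.2 q
    have h3 : ∑ i, a' i * (b i - 1) = -∑ i, a' i * pr u q i := by
      rw [← Finset.sum_neg_distrib]
      refine Finset.sum_congr rfl fun i _ => ?_
      by_cases hi : a' i = 0
      · rw [hi]
        ring
      · have : b i - 1 + pr u q i = 0 := hq2 i hi
        have e1 : b i - 1 = -pr u q i := by linarith
        rw [e1]
        ring
    have h4 : 0 ≤ ∑ i, a i * (b i - 1 + pr u q i) :=
      Finset.sum_nonneg fun i _ => mul_nonneg (ha.1 i) (hq1 i)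
    have h5 : ∑ i, a i * (b i - 1 + pr u q i) = ∑ i, a i * (b i - 1) + ∑ i, a i * pr u q i := by
      simp only [mul_add, Finset.sum_add_distrib]
    linarith
  refine ⟨S', ⟨by rw [← hm0']; exact hF m0, ?_, ?_, ?_, hle, ?_⟩⟩
  · refine ⟨fun i => d i + θ m0 i, fun σ hσ hmax => ?_⟩
    have h1 : σ ∈ F m0 := by rw [hm0']; exact hσ
    obtain ⟨q, hq1, hq2⟩ := h1
    refine ⟨q, hq2, fun j _ hj => lt_of_le_of_ne (hq1 j) fun h => hj ?_⟩
    have h2 : insert j σ ∈ S' := by
      rw [← hm0']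
      refine ⟨q, hq1, fun i hi => ?_⟩
      rcases Set.mem_insert_iff.1 hi with rfl | hi
      · exact h.symm
      · exact hq2 i hi
    rw [← hmax _ h2 (Set.subset_insert j σ)]
    exact Set.mem_insert j σ
  · intro σ hσ
    obtain ⟨q, hq1, hq2⟩ := hlim σ hσ
    rw [hd] at hq1 hq2
    refine ⟨q, hq2, fun i _ => hq1 i, ?_⟩
    rw [add_assoc]
    exact hCa _ hκ _ (mem_of_adjoint hS hCx hCc hb hq1)
  · intro w a' ha'
    obtain ⟨a, ha, -⟩ := hS.rep w
    obtain ⟨q, hq1, hq2, hq3⟩ := hb w a ha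
    refine ⟨q, hq1, hq2, ?_⟩
    have h1 := rep_pair ha.2.2 q
    have h2 := rep_pair ha'.2.2 q
    have h3 := hle w a a' ha ha'
    simp only [mul_add, mul_sub, mul_one, Finset.sum_add_distrib, Finset.sum_sub_distrib]
      at hq3 h3 ⊢
    linarith
  · intro i hi a' ha'
    obtain ⟨q, hq1, hq2⟩ := hlim _ ha'.2.1
    rw [hd] at hq1 hq2
    have h2 := rep_pair ha'.2.2 q
    have h3 : ∑ j, a' j * (b j - 1) = -∑ j, a' j * pr u q j := by
      rw [← Finset.sum_neg_distrib]
      refine Finset.sum_congr rfl fun j _ => ?_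
      by_cases hj : a' j = 0
      · rw [hj]
        ring
      · have : b j - 1 + pr u q j = 0 := hq2 j hj
        have e1 : b j - 1 = -pr u q j := by linarith
        rw [e1]
        ring
    have h4 : ∑ l, q l * (u i l : ℝ) = pr u q i := rfl
    have h5 : 0 < b i - 1 + pr u q i := by
      refine lt_of_le_of_ne (hq1 i) fun h => hi (hrays i ⟨q, fun j => ?_, fun j hj => ?_⟩)
      · rw [hd]
        exact hq1 j
      · rw [Set.mem_singleton_iff] at hj
        subst hj
        rw [hd]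
        exact h.symm
    rw [h3, ← h2, h4]
    linarith

end Pool.Agent.U976.LT
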