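import Mathlib.Analysis.Convex.Cone.Basic
import Mathlib.Analysis.Normed.Module.Basic
import Mathlib.Analysis.Real.Sqrt

/-!
# Classes on toric bundles: log terminal models of generalized pairs

Let `X` be a compact Kähler manifold whose pseudo-effective classes are nef (for instance a complex
torus, a curve, a manifold with Picard number one, ...). `W` is the space `H^{1,1}(X, ℝ)`, `C ⊆ W` the
closed convex cone of the nef, that is, pseudo-effective classes, and `κ` the class of `K_X`.

Let `N l ∈ W`, `l < n`, be the classes of `n` line bundles on `X`. They give a principal bundle for the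
torus with the lattice `ℤ ^ n` of one-parameter subgroups, and for each complete fan in `ℝ ^ n` a toric
bundle `Y → X`. The rays of the fans are generated by some of the (primitive) vectors `u i ∈ ℤ ^ n`, and
`D_i` is the torus invariant prime divisor of the ray of `u i`. The pair `(d, α)`, `d i ∈ ℝ`, `α ∈ W`, is
the class `∑ d i D_i + π^* α` on `Y`, where the sum is over the rays of the fan; for `q ∈ ℝ ^ n` it is
equal to the class `(d i + ⟨q, u i⟩, α + ∑ q l N l)`, since the characters of the torus are rational
sections of line bundles on `X`. The canonical class of `Y` is `(-1, κ)`.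
-/

set_option autoImplicit false

namespace Pool.Agent.U976.LT

variable {ι : Type*} [Fintype ι] {n : ℕ}

/-- The pairing `⟨q, u i⟩`. -/
def pr (u : ι → Fin n → ℤ) (q : Fin n → ℝ) (i : ι) : ℝ := ∑ l, q l * (u i l : ℝ)

/-- `w = ∑ a i u i`, `a i ≥ 0`, and the `u i` with `a i ≠ 0` span a cone of the fan. -/
def IsRep (u : ι → Fin n → ℤ) (S : Set (Set ι)) (w : Fin n → ℝ) (a : ι → ℝ) : Prop :=
  (∀ i, 0 ≤ a i) ∧ {i | a i ≠ 0} ∈ S ∧ ∀ l, ∑ i, a i * (u i l : ℝ) = w l

/-- The cones spanned by the `u i`, `i ∈ σ`, for the sets `σ` in `S`, are the cones of a complete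
simplicial fan: each real vector is in exactly one way a combination with positive coefficients of the
`u i`, `i ∈ σ`, for a set `σ` in `S`. The rays are the ones with `{i} ∈ S`. -/
structure IsCompleteFan (u : ι → Fin n → ℤ) (S : Set (Set ι)) : Prop where
  face : ∀ σ ∈ S, ∀ τ ⊆ σ, τ ∈ S
  rep : ∀ w : Fin n → ℝ, ∃! a : ι → ℝ, IsRep u S w a

/-- The fan is the normal fan of a polytope, that is, its toric variety is projective: there is a
strictly convex support function, with the value `-h i` at `u i`. -/
def IsProjectiveFan (u : ι → Fin n → ℤ) (S : Set (Set ι)) : Prop :=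
  ∃ h : ι → ℝ, ∀ σ ∈ S, (∀ τ ∈ S, σ ⊆ τ → τ = σ) →
    ∃ q : Fin n → ℝ, (∀ i ∈ σ, h i + pr u q i = 0) ∧ ∀ j, {j} ∈ S → j ∉ σ → 0 < h j + pr u q j

variable {W : Type*} [NormedAddCommGroup W] [NormedSpace ℝ W]

/-- The class `(d, α)` is pseudo-effective: it is the class of a positive current
`∑ (d i + ⟨q, u i⟩) D_i + π^* T`, where `T` is a positive current on `X`. -/
def IsPsef (u : ι → Fin n → ℤ) (C : Set W) (N : Fin n → W) (d : ι → ℝ) (α : W) : Prop :=
  ∃ q : Fin n → ℝ, (∀ i, 0 ≤ d i + pr u q i) ∧ α + ∑ l, q l • N l ∈ C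

/-- The class `(d, α)` is nef on the toric bundle given by the fan `S`: for each cone `σ` of the fan
it is equal to a class `∑ (d i + ⟨q, u i⟩) D_i + π^* β` with nonnegative coefficients, which are zero for
`i ∈ σ`, and nef `β`. (For the maximal cones `β` is the restriction to the section of `Y → X` given by
`σ`.) -/
def IsNef (u : ι → Fin n → ℤ) (S : Set (Set ι)) (C : Set W) (N : Fin n → W) (d : ι → ℝ) (α : W) :
    Prop :=
  ∀ σ ∈ S, ∃ q : Fin n → ℝ, (∀ i ∈ σ, d i + pr u q i = 0) ∧ (∀ i, {i} ∈ S → 0 ≤ d i + pr u q i) ∧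
    α + ∑ l, q l • N l ∈ C

/-- The class `(b, α) = B + β` on `Y` has the following property of the generalized log canonical pairs
`(Y, B + β)`: for each monomial valuation `w ∈ ℝ ^ n` over `Y` (for primitive integral `w` it is the
order of vanishing along the torus invariant prime divisor `E_w` over `Y`), which is
`w = ∑ a i u i` in a cone of the fan and has the log discrepancy `∑ a i` over `Y`, there is a positive
current `∑ (b i + ⟨q, u i⟩) D_i + π^* T` in the class whose multiplicity
`∑ a i (b i + ⟨q, u i⟩)` at `w` is at most the log discrepancy. -/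
def IsGenLC (u : ι → Fin n → ℤ) (S : Set (Set ι)) (C : Set W) (N : Fin n → W) (b : ι → ℝ) (α : W) :
    Prop :=
  ∀ (w : Fin n → ℝ) (a : ι → ℝ), IsRep u S w a → ∃ q : Fin n → ℝ, (∀ i, 0 ≤ b i + pr u q i) ∧
    α + ∑ l, q l • N l ∈ C ∧ ∑ i, a i * (b i + pr u q i) ≤ ∑ i, a i

/-- The toric bundle `Y'` given by the fan `S'` is a log terminal model of `(Y, B + β)`, where `Y` is
given by the fan `S`, all `u i` are rays of `S` and `B + β` has the class `(b, α)`, so that
`K_Y + B + β` is the class `(b i - 1, κ + α)`:
* `Y'` is strongly `ℚ`-factorial (the fan is simplicial), compact and Kähler (the fan is projective);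
* `K_{Y'} + B' + β` is nef;
* `(Y', B' + β)` again has the property `IsGenLC` of the generalized log canonical pairs;
* the difference of the pullbacks of `K_Y + B + β` and of `K_{Y'} + B' + β` to a common toric resolution
  is effective: its coefficient at the prime divisor `E_w` given by a primitive vector `w` is
  `∑ a i (b i - 1) - ∑ a' i (b i - 1)`, if `w` is `∑ a i u i` in a cone of `S` and `∑ a' i u i` in a cone
  of `S'`; so the log discrepancies of all prime divisors do not decrease;
* the coefficient is positive if `E_w` is a divisor `D_i` on `Y` which is contracted by `Y ⇢ Y'`.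
(No divisor is contracted by `Y' ⇢ Y`, as the rays of the fan `S'` are generated by some of the `u i`.)
-/
structure IsModel (u : ι → Fin n → ℤ) (S S' : Set (Set ι)) (C : Set W) (κ : W) (N : Fin n → W)
    (b : ι → ℝ) (α : W) : Prop where
  fan : IsCompleteFan u S'
  projective : IsProjectiveFan u S'
  nef : IsNef u S' C N (fun i => b i - 1) (κ + α)
  genLC : IsGenLC u S' C N b α
  le : ∀ (w : Fin n → ℝ) (a a' : ι → ℝ), IsRep u S w a → IsRep u S' w a' →
    ∑ i, a' i * (b i - 1) ≤ ∑ i, a i * (b i - 1)
  lt : ∀ i, {i} ∉ S' → ∀ a' : ι → ℝ, IsRep u S' (fun l => (u i l : ℝ)) a' →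
    ∑ j, a' j * (b j - 1) < b i - 1

end Pool.Agent.U976.LT
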